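import Pool.Agent.W622.ETC.Stm

set_option autoImplicit false

/-!
Splitting a normal form (part SPLIT of project ELT).
-/

namespace Pool.Agent.W131.ELT

open Pool.Agent.W622.ETC Module

theorem disjoint_sSup_sSup {V : Type} [AddCommGroup V] [Module (ZMod 2) V]
    {s t u : Set (DSub V)} (hs : sSupIndep s) (ht : t ⊆ s) (hu : u ⊆ s) (htu : Disjoint t u) :
    Disjoint (sSup t) (sSup u) := by
  have h1 := (sSupIndep_iff s).1 hs
  have h2 := h1.disjoint_biSup_biSup (s := {x : s | x.1 ∈ t}) (t := {x : s | x.1 ∈ u})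
    (Set.disjoint_left.2 fun x hx hx' => Set.disjoint_left.1 htu hx hx')
  have key : ∀ w : Set (DSub V), w ⊆ s → sSup w ≤ ⨆ i ∈ {x : s | x.1 ∈ w}, (i : DSub V) := by
    intro w hw
    refine sSup_le fun X hX => ?_
    exact le_iSup_of_le (⟨X, hw hX⟩ : s) (le_iSup_of_le hX le_rfl)
  exact h2.mono (key t ht) (key u hu)

theorem iSup_res_le {V : Type} [AddCommGroup V] [Module (ZMod 2) V] (A : Fam V)
    (t : Set (DSub V)) : (⨆ X ∈ t, res A X) ≤ res A (sSup t) :=
  iSup_le fun _ => iSup_le fun hX => res_mono A (le_sSup hX)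

theorem t_SPLIT : S_SPLIT := by
  intro V _ _ _ A s t hA hC hts
  obtain ⟨hind, hsum, hcomp⟩ := hC
  have hdis : Disjoint (sSup t) (sSup (s \ t)) :=
    disjoint_sSup_sSup hind hts Set.sdiff_subset Set.disjoint_sdiff_right
  have hA1 : A ≤ (⨆ X ∈ t, res A X) ⊔ ⨆ X ∈ s \ t, res A X := by
    conv_lhs => rw [hsum]
    refine iSup_le fun X => iSup_le fun hX => ?_
    by_cases hXt : X ∈ t
    · exact le_sup_of_le_left (le_iSup_of_le X (le_iSup_of_le hXt le_rfl))
    · exact le_sup_of_le_right (le_iSup_of_le X (le_iSup_of_le ⟨hX, hXt⟩ le_rfl))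
  have hres : res A (sSup t) ≤ ⨆ X ∈ t, res A X := by
    intro ω hω
    obtain ⟨α, hα, β, hβ, hαβ⟩ := Submodule.mem_sup.1 (hA1 hω.1)
    have hα' := iSup_res_le A t hα
    have hβ' := iSup_res_le A (s \ t) hβ
    have hβ0 : β = 0 := by
      refine LinearMap.ext fun a => ?_
      have h1 : β a = ω a + α a := by
        have h2 : ω a = α a + β a := by rw [← hαβ, LinearMap.add_apply]
        rw [h2, add_comm (α a), add_assoc, vadd, add_zero]
      have h2 : β a ∈ sSup t := by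
        rw [h1]
        exact Submodule.add_mem _ (hω.2 a) (hα'.2 a)
      have h3 : β a ∈ sSup t ⊓ sSup (s \ t) := ⟨h2, hβ'.2 a⟩
      rw [hdis.eq_bot, Submodule.mem_bot] at h3
      exact h3
    rw [hβ0, add_zero] at hαβ
    rw [← hαβ]
    exact hα
  refine ⟨le_antisymm ?_ (sup_le (res_le _ _) (res_le _ _)), hdis, ?_, ?_, ?_⟩
  · exact hA1.trans (sup_le_sup (iSup_res_le A t) (iSup_res_le A (s \ t)))
  · exact hind.mono hts
  · have h1 : (⨆ X ∈ t, res (res A (sSup t)) X) = ⨆ X ∈ t, res A X := by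
      refine iSup_congr fun X => iSup_congr fun hX => ?_
      exact res_res_of_le A (le_sSup hX)
    rw [h1]
    exact le_antisymm hres (iSup_res_le A t)
  · intro X hX
    rcases hcomp X (hts hX) with ⟨ω, ⟨hω1, hω2, hω3⟩, hXω⟩ | ⟨p, hp1, hp2, hp3, hp4⟩
    · refine Or.inl ⟨ω, ⟨?_, hω2, fun η hη => hω3 η (res_le _ _ hη)⟩, hXω⟩
      exact mem_res'.2 ⟨hω1, hXω ▸ le_sSup hX⟩
    · refine Or.inr ⟨p, hp1, hp2, hp3, fun g hg => ?_⟩
      refine mem_res'.2 ⟨hp4 g hg, (sp_wd_le p g).trans (le_trans ?_ (le_sSup hX))⟩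
      rw [Submodule.span_le]
      intro x hx
      rcases hx with rfl | rfl
      · exact hp2
      · exact hg

end Pool.Agent.W131.ELT
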